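import Pool.Agent.Run7.h350.EP.Iface

/-!
# Project EP (helper350), piece PIC (Picone identity), written by helper592
-/

set_option autoImplicit false

namespace Pool.Agent.Run7.h592.EP

open MeasureTheory Set Topology Pool.Agent.Run7.h350.EP

variable {m : ℕ}

/-- a function continuous on an open set and supported in a compact subset is integrable -/
lemma int_of {Ω K : Set (X m)} (hΩ : IsOpen Ω) (hK : IsCompact K) (hKΩ : K ⊆ Ω) {F : X m → ℝ}
    (hF : ContinuousOn F Ω) (h0 : ∀ x, x ∉ K → F x = 0) : Integrable F := by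
  have hs : tsupport F ⊆ K := by
    refine closure_minimal ?_ hK.isClosed
    intro x hx
    by_contra hxK
    exact hx (h0 x hxK)
  have hc : Continuous F :=
    continuous_of_tsupport (fun x hx => hF.continuousAt (hΩ.mem_nhds (hKΩ (hs hx))))
  exact hc.integrable_of_hasCompactSupport (HasCompactSupport.intro hK (fun {x} hx => h0 x hx))

lemma pd_zero {w : X m → ℝ} {x : X m} (hx : x ∉ tsupport w) (i : Fin (m + 1)) : pd i w x = 0 := by
  unfold pd
  rw [fderiv_of_notMem_tsupport ℝ hx]
  rfl

lemma pd_cont {w : X m → ℝ} (hw : ContDiff ℝ 1 w) (i : Fin (m + 1)) : Continuous (pd i w) :=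
  (hw.continuous_fderiv one_ne_zero).clm_apply continuous_const

lemma pd_contOn {Ω : Set (X m)} (hΩ : IsOpen Ω) {v : X m → ℝ} (hv : ContDiffOn ℝ 1 v Ω)
    (i : Fin (m + 1)) : ContinuousOn (pd i v) Ω :=
  (hv.continuousOn_fderiv_of_isOpen hΩ le_rfl).clm_apply continuousOn_const

lemma gsq_zero {w : X m → ℝ} {x : X m} (hx : x ∉ tsupport w) : gsq w x = 0 := by
  unfold gsq
  refine Finset.sum_eq_zero (fun i _ => ?_)
  rw [pd_zero hx i]; ring

lemma pd_mul {f g : X m → ℝ} {x : X m} (hf : DifferentiableAt ℝ f x) (hg : DifferentiableAt ℝ g x)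
    (i : Fin (m + 1)) : pd i (fun y => f y * g y) x = f x * pd i g x + g x * pd i f x := by
  unfold pd
  rw [fderiv_fun_mul hf hg]
  simp [smul_eq_mul]

theorem t_PIC : S_PIC := by
  intro m Ω v V hΩ hv hpos hV hweak ψ hψ
  obtain ⟨hψ1, hψc, hψs⟩ := hψ
  -- the quotient
  have hwsupp : tsupport (fun x => ψ x / v x) ⊆ tsupport ψ := by
    refine closure_mono ?_
    intro x hx
    simp only [Function.mem_support] at hx ⊢
    intro h
    exact hx (by rw [h, zero_div])
  have hw1 : ContDiff ℝ 1 (fun x => ψ x / v x) := by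
    rw [contDiff_iff_contDiffAt]
    intro x
    by_cases hx : x ∈ Ω
    · exact hψ1.contDiffAt.div (hv.contDiffAt (hΩ.mem_nhds hx)) (hpos x hx).ne'
    · have hx' : x ∉ tsupport ψ := fun h => hx (hψs h)
      have he : (fun x => ψ x / v x) =ᶠ[𝓝 x] fun _ => (0 : ℝ) := by
        filter_upwards [notMem_tsupport_iff_eventuallyEq.mp hx'] with y hy
        rw [hy]; simp
      exact contDiffAt_const.congr_of_eventuallyEq he
  have hwT : Test1 Ω (fun x => ψ x / v x) :=
    ⟨hw1, hψc.of_isClosed_subset (isClosed_tsupport _) hwsupp, hwsupp.trans hψs⟩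
  refine ⟨hwT, ?_⟩
  set w : X m → ℝ := fun x => ψ x / v x with hwdef
  -- the test function `η = ψ w`
  set η : X m → ℝ := fun x => ψ x * w x with hη
  have hηs : tsupport η ⊆ tsupport ψ := tsupport_mul_subset_left
  have hηT : Test1 Ω η :=
    ⟨hψ1.mul hw1, hψc.of_isClosed_subset (isClosed_tsupport _) hηs, hηs.trans hψs⟩
  have hwe := hweak η hηT
  -- pointwise identities
  have hψw : ∀ x ∈ Ω, ψ x = w x * v x := by
    intro x hx
    simp only [hwdef]
    field_simp [(hpos x hx).ne']
  have e1 : ∀ x, gsq ψ x - V x * ψ x ^ 2 =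
      (v x) ^ 2 * gsq w x + (∑ i, pd i v x * pd i η x - V x * v x * η x) := by
    intro x
    by_cases hx : x ∈ Ω
    · have hvd : DifferentiableAt ℝ v x :=
        (hv.contDiffAt (hΩ.mem_nhds hx)).differentiableAt (by norm_num)
      have hwd : DifferentiableAt ℝ w x := (hw1.differentiable (by norm_num)) x
      have hψd : DifferentiableAt ℝ ψ x := (hψ1.differentiable (by norm_num)) x
      have hloc : ψ =ᶠ[𝓝 x] fun y => w y * v y := by
        filter_upwards [hΩ.mem_nhds hx] with y hy
        exact hψw y hy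
      have ha : ∀ i, pd i ψ x = w x * pd i v x + v x * pd i w x := by
        intro i
        have : pd i ψ x = pd i (fun y => w y * v y) x := by
          unfold pd
          rw [hloc.fderiv_eq]
        rw [this, pd_mul hwd hvd i]
      have hb : ∀ i, pd i η x = ψ x * pd i w x + w x * pd i ψ x := by
        intro i
        exact pd_mul hψd hwd i
      have hc : gsq ψ x = (v x) ^ 2 * gsq w x + ∑ i, pd i v x * pd i η x := by
        unfold gsq
        rw [Finset.mul_sum, ← Finset.sum_add_distrib]
        refine Finset.sum_congr rfl (fun i _ => ?_)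
        rw [hb i, ha i, hψw x hx]
        ring
      have hd : V x * ψ x ^ 2 = V x * v x * η x := by
        simp only [hη]
        rw [hψw x hx]; ring
      rw [hc, hd]; ring
    · have hx' : x ∉ tsupport ψ := fun h => hx (hψs h)
      have hψ0 : ψ x = 0 := image_eq_zero_of_notMem_tsupport hx'
      have h1 : gsq ψ x = 0 := gsq_zero hx'
      have h2 : gsq w x = 0 := gsq_zero (fun h => hx' (hwsupp h))
      have h3 : ∀ i, pd i η x = 0 := fun i => pd_zero (fun h => hx' (hηs h)) i
      have h4 : η x = 0 := image_eq_zero_of_notMem_tsupport (fun h => hx' (hηs h))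
      rw [h1, h2, h4, hψ0]
      simp [h3]
  -- integrability
  have hK : IsCompact (tsupport ψ) := hψc
  have i1 : Integrable (fun x => (v x) ^ 2 * gsq w x) := by
    refine int_of hΩ hK hψs ?_ ?_
    · refine (hv.continuousOn.pow 2).mul ?_
      unfold gsq
      exact (continuous_finsetSum _ (fun i _ => (pd_cont hw1 i).pow 2)).continuousOn
    · intro x hx
      rw [gsq_zero (fun h => hx (hwsupp h)), mul_zero]
  have i2 : Integrable (fun x => ∑ i, pd i v x * pd i η x) := by
    refine int_of hΩ hK hψs ?_ ?_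
    · exact continuousOn_finsetSum _
        (fun i _ => (pd_contOn hΩ hv i).mul (pd_cont hηT.1 i).continuousOn)
    · intro x hx
      refine Finset.sum_eq_zero (fun i _ => ?_)
      rw [pd_zero (fun h => hx (hηs h)) i, mul_zero]
  have i3 : Integrable (fun x => V x * v x * η x) := by
    refine int_of hΩ hK hψs ?_ ?_
    · exact (hV.mul hv.continuousOn).mul hηT.1.continuous.continuousOn
    · intro x hx
      rw [image_eq_zero_of_notMem_tsupport (fun h => hx (hηs h)), mul_zero]
  calc ∫ x, (gsq ψ x - V x * ψ x ^ 2)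
      = ∫ x, ((v x) ^ 2 * gsq w x + (∑ i, pd i v x * pd i η x - V x * v x * η x)) := by
        congr 1; funext x; exact e1 x
    _ = (∫ x, (v x) ^ 2 * gsq w x) + ∫ x, (∑ i, pd i v x * pd i η x - V x * v x * η x) :=
        integral_add i1 (i2.sub i3)
    _ = (∫ x, (v x) ^ 2 * gsq w x) +
          ((∫ x, ∑ i, pd i v x * pd i η x) - ∫ x, V x * v x * η x) := by
        rw [integral_sub i2 i3]
    _ = ∫ x, (v x) ^ 2 * gsq w x := by rw [hwe]; ring

end Pool.Agent.Run7.h592.EP
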